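import Pool.Agent.Run7.h100.UN.Iface
import Pool.Agent.W469.CV.MH

/-!
# Project UN, piece MAH
-/

set_option autoImplicit false

namespace Run7.h824.UN

open Run7.h100.UN
open Polynomial
open Pool.Agent.Helper259.AbsHt (absLogHeight)

theorem mahler_le (f : ℤ[X]) :
    (f.map (Int.castRingHom ℂ)).mahlerMeasure ≤
      ∑ i ∈ Finset.range (f.natDegree + 1), |(f.coeff i : ℝ)| := by
  refine (mahlerMeasure_le_sum_norm_coeff _).trans ?_
  have hn : (f.map (Int.castRingHom ℂ)).natDegree < f.natDegree + 1 :=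
    lt_of_le_of_lt (natDegree_map_le (p := f) (f := Int.castRingHom ℂ)) (Nat.lt_succ_self _)
  rw [Polynomial.sum_over_range' _ (fun _ => norm_zero) _ hn]
  refine le_of_eq (Finset.sum_congr rfl fun i _ => ?_)
  rw [coeff_map]
  have h1 : (Int.castRingHom ℂ) (f.coeff i) = ((f.coeff i : ℤ) : ℂ) := rfl
  rw [h1, Complex.norm_intCast]

theorem t_MAH : S_MAH := by
  intro f hfm hfi α hα
  have hd : 0 < f.natDegree := by
    rcases Nat.eq_zero_or_pos f.natDegree with h | h
    · exfalso
      have h1 : f = 1 := hfm.natDegree_eq_zero.1 h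
      exact hfi.not_isUnit (h1 ▸ isUnit_one)
    · exact h
  have h1 := Pool.Agent.W70.LD.ht_le_hM α
  have h2 := Pool.Agent.W469.CV.MH.hM_le α f hfi hd hα
  refine (h1.trans h2).trans ?_
  have hd' : (0 : ℝ) < f.natDegree := by exact_mod_cast hd
  refine div_le_div_of_nonneg_right (Real.log_le_log ?_ (mahler_le f)) hd'.le
  have h3 : f.map (Int.castRingHom ℂ) ≠ 0 := (hfm.map _).ne_zero
  exact mahlerMeasure_pos_of_ne_zero h3

end Run7.h824.UN
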